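import Mathlib
import Pool.Agent.H147R3.KK.P4
set_option autoImplicit false

/-!
# MP_850839: the Kakeya inequality for families of tubes, averaged over dilations of the positions

Let `n = d + 3`.  Points of `ℝ^n` are written `(x, t)` with `x ∈ ℝ^(n-1)` and `t ∈ ℝ`.  For a finite
`δ`-separated set `V ⊆ ℝ^(n-1)` of directions `(v, 1)` and an arbitrary choice of positions
`p v ∈ ℝ^(n-1)`, the tube number `v` is the `δ`-tube around the segment
`{(p v + t v, t) : |t| ≤ 1}`.  Multiply the last `n - 2` coordinates of all the positions by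
`m_1, ..., m_(n-2)` and keep the directions.  The theorem says that the conjectured inequality for
the `L^q` norm of the counting function holds, without any loss, on average over `m`:

* for Lebesgue measure on a bounded box (`α = 1`) in the full conjectured range `q > n / (n - 1)`;
* for products of measures with `μ_j (I) ≤ A |I|^α` on all intervals, `1/(n-1) < α ≤ 1`, in the range
  `q > 1 + 1 / (α (n - 1))`.

The constant depends only on `n, q, α, A, L`.
-/

namespace Pool.Agent.Results.MP_850839_an.AveragedDilates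

open MeasureTheory Set
open scoped ENNReal

/-- The tube of radius `δ` around the segment `{(a + t w, t) : |t| ≤ 1}` of `ℝ^D × ℝ`. -/
def tube {D : ℕ} (δ : ℝ) (a w : Fin D → ℝ) : Set ((Fin D → ℝ) × ℝ) :=
  {z | |z.2| ≤ 1 ∧ ∑ j, (z.1 j - (a j + z.2 * w j)) ^ 2 ≤ δ ^ 2}

/-- The vector `(a_0, m_0 a_1, ..., m_(D-1) a_D)`. -/
def dilate {D : ℕ} (m : Fin D → ℝ) (a : Fin (D + 1) → ℝ) : Fin (D + 1) → ℝ :=
  fun j => (Fin.cons 1 m : Fin (D + 1) → ℝ) j * a j

/-- **The Kakeya inequality on average over anisotropic dilations of the positions.** -/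
theorem result (d : ℕ) (α q A L : ℝ) (hA : 0 ≤ A) (hL : 0 < L) (hα : 1 / ((d : ℝ) + 2) < α)
    (hα1 : α ≤ 1) (hq : 1 + 1 / (α * ((d : ℝ) + 2)) < q) :
    ∃ C : ℝ, ∀ μ : Fin (d + 1) → Measure ℝ,
      (∀ j, μ j (Icc (-L) L)ᶜ = 0 ∧
        ∀ a r : ℝ, 0 ≤ r → μ j (Icc a (a + r)) ≤ ENNReal.ofReal (A * r ^ α)) →
      ∀ δ : ℝ, 0 < δ → ∀ V : Finset (Fin (d + 2) → ℝ),
      (∀ v ∈ V, ∀ w ∈ V, v ≠ w → δ ^ 2 ≤ ∑ j, (v j - w j) ^ 2) →
      ∀ p : (Fin (d + 2) → ℝ) → (Fin (d + 2) → ℝ),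
      ∫⁻ m, (∫⁻ z : (Fin (d + 2) → ℝ) × ℝ,
        (∑ v ∈ V, (tube δ (dilate m (p v)) v).indicator (fun _ => (1 : ℝ≥0∞)) z) ^ q)
          ∂(Measure.pi μ) ≤
        ENNReal.ofReal (C * δ ^ (d + 2) * (V.card : ℝ) ^ (q - 1 / ((d : ℝ) + 2))) := by
  have hd : (0 : ℝ) < (d : ℝ) + 2 := by positivity
  have hαd : 1 < α * ((d : ℝ) + 2) := by rwa [div_lt_iff₀ hd] at hα
  obtain ⟨C, hC⟩ := Pool.Agent.H147R3.KK.main d A α L q hA hL hαd hα1 hq
  exact ⟨C, fun μ hμ δ hδ V hV p => hC μ hμ δ hδ V hV p⟩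

end Pool.Agent.Results.MP_850839_an.AveragedDilates
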