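import Pool.Agent.H810R3.Tub.Bounds

set_option autoImplicit false

/-!
# MP_850839: the tube inequality in the full range, without loss, for tubes from polynomial families
of lines

Work in `ℝ^n = ℝ^d × ℝ`, `n = d + 1`, with its Euclidean norm (`Space d`).  A line with direction
`dir v = (v, 1)/|(v, 1)|` meets the hyperplane of height `0` in a point `(β, 0)`; a tube with this
axis is centred at `(β + s v, s)`.  The tubes considered have `|v| ≤ 1` and `|s| ≤ S`.

Here `|β - P v| ≤ K δ` for a polynomial map `P` of degree at most `k` which is `L`-Lipschitz on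
`|v| < 2`.  For such families the conjectured inequality holds for every `q > n/(n-1)` with a
constant `C (1 + K + L + S)^(n-1)`, `C` depending only on `n`, `q`, `k`.
-/

open MeasureTheory Set Filter Topology ENNReal NNReal Metric

namespace Pool.Agent.Results.MP_850839_an.PolynomialFamilies

open Pool.Agent.H810R3.Tub

/-- **The conjectured inequality for `δ`-tubes with `δ`-separated orientations, in the full range
`q > n/(n-1)`, `n = d + 1`, without any loss in `δ` and with the conjectured dependence on the number
of tubes**, for tubes whose axes lie (up to `K δ`) in a family of lines given by a polynomial map of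
degree at most `k` which is `L`-Lipschitz on the ball of radius `2`. -/
theorem result (d : ℕ) (hd : 1 ≤ d) (q : ℝ) (hq : ((d : ℝ) + 1) / d < q) (k : ℕ) :
    ∃ C : ℝ, 0 < C ∧ ∀ (L K S : ℝ≥0) (P : Fin d → MvPolynomial (Fin d) ℝ),
      (∀ j, (P j).totalDegree ≤ k) → LipschitzOnWith L (pmap P) (ball 0 2) →
      ∀ δ : ℝ, 0 < δ → δ < 1 → ∀ (ι : Type) [Fintype ι] (v β : ι → Vec d) (s : ι → ℝ),
        (∀ i, ‖v i‖ ≤ 1) → (∀ i, |s i| ≤ S) → (∀ i, ‖β i - pmap P (v i)‖ ≤ K * δ) →
        (∀ i j, i ≠ j → δ ≤ ‖dir (v i) - dir (v j)‖) →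
        eLpNorm (fun y : Space d => ∑ i,
            (tube δ (dir (v i)) (WithLp.toLp 2 (β i + s i • v i, s i))).indicator (fun _ => (1 : ℝ)) y)
            (ENNReal.ofReal q) volume
          ≤ ENNReal.ofReal (C * (1 + K + L + S : ℝ) ^ d *
              δ ^ ((d : ℝ) / q) * (Fintype.card ι : ℝ) ^ (1 - 1 / (q * d))) :=
  polynomial d hd q hq k

end Pool.Agent.Results.MP_850839_an.PolynomialFamilies
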